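import Pool.Agent.Q161.ESV.Stm2
import Pool.Agent.Q153.ESN.FRX

/-!
# Job EXI of project ESV (helper161): a prime of `F^a` above a prime of `K`, and a ramified element
-/

set_option autoImplicit false

namespace Pool.Agent.Q83.ESV

open NumberField IsDedekindDomain Finset
open Pool.Agent.Q51.EL (Abv Par)
open Pool.Agent.Q161.ESV
open Pool.Agent.Q161.ESN (Ov Fb iO)

/-- an automorphism of `Ω` which fixes the image of `F` restricts to the image of `F^a` -/
theorem exists_cpt {F : Type} [Field F] {l : ℕ} [Fact l.Prime]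
    (ψ : AlgebraicClosure F →+* PadicAlgCl l) (τ : PadicAlgCl l ≃ₐ[ℚ_[l]] PadicAlgCl l)
    (h : ∀ x : F, τ (ψ (algebraMap F _ x)) = ψ (algebraMap F _ x)) : ∃ σ : GF F, Cpt ψ τ σ := by
  let _ : Algebra F (PadicAlgCl l) := (ψ.comp (algebraMap F (AlgebraicClosure F))).toAlgebra
  let _ : Algebra (AlgebraicClosure F) (PadicAlgCl l) := ψ.toAlgebra
  have _ : IsScalarTower F (AlgebraicClosure F) (PadicAlgCl l) :=
    IsScalarTower.of_algebraMap_eq' rfl
  let τ' : PadicAlgCl l ≃ₐ[F] PadicAlgCl l :=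
    AlgEquiv.ofRingEquiv (f := τ.toRingEquiv) (fun x => h x)
  refine ⟨τ'.restrictNormal (AlgebraicClosure F), fun x => ?_⟩
  exact (τ'.restrictNormal_commutes (AlgebraicClosure F) x).symm

/-- extension of an embedding of `K` to `F^a` -/
theorem exists_ext {F K : Type} [Field F] [Field K] [Algebra F K] {l : ℕ} [Fact l.Prime]
    (e : K →ₐ[F] AlgebraicClosure F) (ψ0 : K →+* PadicAlgCl l) :
    ∃ ψ : AlgebraicClosure F →+* PadicAlgCl l, ∀ x, ψ (e x) = ψ0 x := by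
  let _ : Algebra K (PadicAlgCl l) := ψ0.toAlgebra
  let _ : Algebra K (AlgebraicClosure F) := e.toRingHom.toAlgebra
  have _ : IsScalarTower F K (AlgebraicClosure F) := IsScalarTower.of_algebraMap_eq' e.comp_algebraMap.symm
  have _ : Algebra.IsAlgebraic K (AlgebraicClosure F) := Algebra.IsAlgebraic.tower_top (K := F) K
  let g : AlgebraicClosure F →ₐ[K] PadicAlgCl l := IsAlgClosed.lift
  exact ⟨g.toRingHom, fun x => g.commutes x⟩

theorem pow_restr {F K : Type} [Field F] [Field K] [NumberField K] [Algebra F K] (φ : K ≃ₐ[F] K) (φ' : K ≃ₐ[ℚ] K)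
    (h : ∀ x, φ' x = φ x) (i : ℕ) (x : K) : (φ' ^ i) x = (φ ^ i) x := by
  induction i with
  | zero => rfl
  | succ i ih =>
    rw [pow_succ', pow_succ', AlgEquiv.mul_apply, AlgEquiv.mul_apply, ih, h]

/-- JOB EXI -/
theorem exi : S_INC → S_EMBW → S_CMP → S_EXI := by
  intro hI hE hC F K _ _ _ _ _ _ e
  obtain ⟨B0, hB0, hB⟩ := Pool.Agent.Q153.ESN.frx F K
  refine ⟨2 * B0, mul_ne_zero two_ne_zero hB0, ?_⟩
  intro l _ hlB w hw
  have hl : l.Prime := Fact.out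
  have hl2 : l ≠ 2 := by
    rintro rfl
    exact hlB (dvd_mul_right 2 _)
  obtain ⟨hsq, -, -, -⟩ := hB l hl (fun h => hlB (h.mul_left 2))
  obtain ⟨ψ0, hN, hT⟩ := hE K l hsq w hw
  obtain ⟨ψ, hψ⟩ := exists_ext e ψ0
  have hfix : ∀ τ : PadicAlgCl l ≃ₐ[ℚ_[l]] PadicAlgCl l, (∀ x : F, τ (ψ0 (algebraMap F K x)) =
      ψ0 (algebraMap F K x)) → ∃ σ : GF F, Cpt ψ τ σ := by
    intro τ h
    apply exists_cpt
    intro x
    have h1 : algebraMap F (AlgebraicClosure F) x = e (algebraMap F K x) := (e.commutes x).symm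
    rw [h1, hψ]
    exact h x
  refine ⟨ψ, ⟨?_, fun τ h => exists_cpt ψ τ h, ?_, ?_⟩⟩
  · intro x m hx
    rw [hψ]
    exact hN x m hx
  · intro φ hφ τ
    let φ' : K ≃ₐ[ℚ] K := AlgEquiv.restrictScalars ℚ φ
    have hφ' : ∀ x, φ' x = φ x := fun _ => rfl
    obtain ⟨i, hi⟩ := hT φ' (fun x y hxy => hφ x y (by rw [hxy, hφ'])) τ
    have hi' : ∀ x : K, τ (ψ0 x) = ψ0 ((φ ^ i) x) := fun x => by rw [hi, pow_restr φ φ' hφ']
    obtain ⟨σ, hσ⟩ := hfix τ (fun x => by rw [hi', (φ ^ i).commutes])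
    refine ⟨σ, i, hσ, fun x => ?_⟩
    apply ψ.injective
    rw [← hσ, hψ, hψ, hi']
  · rintro y ⟨k, hk⟩ s hs
    have hOv : Ov w w := by
      intro x
      have h1 : iO K K x = x := by
        apply RingOfIntegers.ext
        rfl
      rw [h1]
    obtain ⟨-, hval⟩ := hC K K l hsq w w hw hOv ψ0 hN
    set E : IntermediateField ℚ_[l] (PadicAlgCl l) :=
      IntermediateField.adjoin ℚ_[l] (Set.range fun x : K => ψ0 (algebraMap K K x)) with hEdef
    have hmem : ∀ x : K, ψ0 x ∈ E := fun x => IntermediateField.subset_adjoin _ _ ⟨x, rfl⟩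
    have hlE : (l : PadicAlgCl l) ∈ E := natCast_mem E l
    have hlR : (0 : ℝ) < l := by exact_mod_cast hl.pos
    have hl0 : (l : PadicAlgCl l) ≠ 0 := by
      intro h
      have h1 : ψ0 (l : K) = 0 := by rw [map_natCast]; exact h
      rw [map_eq_zero] at h1
      exact hl.ne_zero (by exact_mod_cast h1)
    have hln : ‖(l : PadicAlgCl l)‖ = (l : ℝ) ^ (-1 : ℤ) := by
      have h1 : (l : PadicAlgCl l) = algebraMap ℚ_[l] (PadicAlgCl l) (l : ℚ_[l]) := by
        rw [map_natCast]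
      rw [h1, norm_algebraMap', Padic.norm_p, zpow_neg_one]
    have hny : ‖ψ0 y‖ = (l : ℝ) ^ (1 + 2 * k) := by
      have h1 := hN y (-(1 + 2 * k)) (by rw [hk, neg_neg])
      rw [h1, neg_neg]
    set D : PadicAlgCl l := ψ0 y * (l : PadicAlgCl l) ^ (2 * k + 2) with hD
    have hDE : D ∈ E := E.mul_mem (hmem y) (zpow_mem hlE _)
    have hDn : ‖D‖ = (l : ℝ) ^ (-1 : ℤ) := by
      rw [hD, norm_mul, norm_zpow, hny, hln, ← zpow_mul, ← zpow_add₀ hlR.ne']
      congr 1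
      ring
    set ϖ : PadicAlgCl l := ψ s * (l : PadicAlgCl l) ^ (k + 1) with hϖ
    have hϖ2 : ϖ ^ 2 = D := by
      rw [hϖ, mul_pow, ← map_pow, hs, hψ, hD, ← zpow_natCast, ← zpow_mul]
      congr 2
      push_cast
      ring
    obtain ⟨τ, hτE, hτϖ, hτz⟩ := hI l hl2 E hval D hDE hDn ϖ hϖ2
    have hτ0 : ∀ x : K, τ (ψ0 x) = ψ0 x := fun x => hτE _ (hmem x)
    obtain ⟨σ, hσ⟩ := hfix τ (fun x => hτ0 _)
    refine ⟨σ, ⟨τ, hσ, hτz⟩, ?_, ?_⟩
    · intro x
      apply ψ.injective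
      rw [← hσ, hψ, hτ0]
      rw [AlgEquiv.one_apply, hψ]
    · apply ψ.injective
      rw [← hσ, map_neg]
      rw [hϖ, map_mul, map_zpow₀, map_natCast] at hτϖ
      have h1 : (l : PadicAlgCl l) ^ (k + 1) ≠ 0 := zpow_ne_zero _ hl0
      apply mul_right_cancel₀ h1
      rw [hτϖ]
      ring

end Pool.Agent.Q83.ESV
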